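import Pool.Agent.W5h32.EH.Coset

/-!
# The bound of Elliott and Halberstam on average over the cosets of subgroups, at every level below `1`

The maximum over the reduced classes `a` modulo `q` is replaced by the maximum over all the cosets of
arbitrary subgroups (or over weights on the classes with a small sum of the absolute values of the coefficients
with respect to the characters); the conjecture is the case of the trivial subgroups.

Proof: the characters of conductor below `x ^ (1/2 - δ)` by the theorem of Bombieri and Vinogradov; the others by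
the large sieve for the character sums over the primes and for their squares.
-/

set_option autoImplicit false

open Finset

namespace Pool.Agent.Results.MP_a78e8f_nt.CosetAverages

open Classical

/-- `π(x)`: the number of primes `p ≤ x`. -/
noncomputable def primePi (x : ℕ) : ℕ := ((Icc 1 x).filter (fun p : ℕ => p.Prime)).card

/-- `π(x; q, a)`: the number of primes `p ≤ x` with `p ≡ a (mod q)`. -/
noncomputable def primePiAP (x q a : ℕ) : ℕ :=
  ((Icc 1 x).filter (fun p : ℕ => p.Prime ∧ p ≡ a [MOD q])).card

/-- The reduced residues modulo `q`: the integers `0 ≤ a < q` prime to `q`. -/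
def residues (q : ℕ) : Finset ℕ := (range q).filter (fun a => a.Coprime q)

/-- The coefficient of the weight `w` with respect to the character `χ` modulo `q`: the sum of `w(a) χ(a)`. -/
noncomputable def coeff (q : ℕ) (w : ℕ → ℂ) (χ : DirichletCharacter ℂ q) : ℂ :=
  ∑ a ∈ residues q, w a * χ (a : ZMod q)

/-- The sum of `w(a) (π(x; q, a) - π(x)/φ(q))` over the reduced residues `a` modulo `q`. -/
noncomputable def discr (x q : ℕ) (w : ℕ → ℂ) : ℂ :=
  ∑ a ∈ residues q, w a * ((primePiAP x q a : ℂ) - (primePi x : ℂ) / (Nat.totient q : ℂ))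

/-- The number of primes `p ≤ x` the class of which modulo `q` is in the coset `c H`. -/
noncomputable def primesInCoset (x q : ℕ) (H : Subgroup (ZMod q)ˣ) (c : (ZMod q)ˣ) : ℕ :=
  ((Icc 1 x).filter (fun p : ℕ => p.Prime ∧
    ∃ h ∈ H, (p : ZMod q) = ((c * h : (ZMod q)ˣ) : ZMod q))).card

/-- **Elliott-Halberstam over cosets.** Let `θ < 1`, `ε > 0` and `A` be real and `κ = max(1 - θ, 1/4) - ε`.

(1) There is a constant `C` such that for every integer `x > 2` and all complex weights `w q` on the
reduced residues modulo `q` the sum of `|∑ w q a (π(x; q, a) - π(x)/φ(q))|` over all the moduli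
`q ≤ x ^ θ` for which all the coefficients of `w q` with respect to the characters modulo `q` are at most `1` and their
absolute values have a sum at most `x ^ κ`, is at most `C x / (log x) ^ A`.

(2) There is a constant `C` such that for every integer `x > 2`, all subgroups `H q` of the groups of the
reduced classes modulo `q` and all reduced classes `c q`, the sum over all the moduli `q ≤ x ^ θ` for which the index of
`H q` is at most `x ^ κ`, of the absolute value of the mean value of `π(x; q, a) - π(x)/φ(q)` over the classes `a`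
in the coset `c q * H q`, is at most `C x / (log x) ^ A`. -/
theorem result (θ ε A : ℝ) (hθ : θ < 1) (hε : 0 < ε) :
    (∃ C : ℝ, ∀ x : ℕ, 2 < x → ∀ w : ℕ → ℕ → ℂ,
      ∑ q ∈ (Icc 1 ⌊(x : ℝ) ^ θ⌋₊).filter (fun q =>
          (∀ χ : DirichletCharacter ℂ q, ‖coeff q (w q) χ‖ ≤ 1) ∧
            ∑ χ : DirichletCharacter ℂ q, ‖coeff q (w q) χ‖ ≤ (x : ℝ) ^ (max (1 - θ) (1 / 4) - ε)),
        ‖discr x q (w q)‖ ≤ C * (x / Real.log x ^ A)) ∧
    (∃ C : ℝ, ∀ x : ℕ, 2 < x → ∀ (H : (q : ℕ) → Subgroup (ZMod q)ˣ) (c : (q : ℕ) → (ZMod q)ˣ),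
      ∑ q ∈ (Icc 1 ⌊(x : ℝ) ^ θ⌋₊).filter (fun q =>
          ((H q).index : ℝ) ≤ (x : ℝ) ^ (max (1 - θ) (1 / 4) - ε)),
        |(primesInCoset x q (H q) (c q) : ℝ) / (Nat.card (H q) : ℝ) -
            (primePi x : ℝ) / (Nat.totient q : ℝ)| ≤ C * (x / Real.log x ^ A)) := by
  obtain ⟨C, hC⟩ := Pool.Agent.W5h32.EH.all θ ε A hθ hε
  refine ⟨⟨C, fun x hx w => ?_⟩, ⟨C, fun x hx H c => ?_⟩⟩
  · have h1 := hC x hx w _ (filter_subset (fun q =>
          (∀ χ : DirichletCharacter ℂ q, ‖coeff q (w q) χ‖ ≤ 1) ∧
            ∑ χ : DirichletCharacter ℂ q, ‖coeff q (w q) χ‖ ≤ (x : ℝ) ^ (max (1 - θ) (1 / 4) - ε)) _)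
      (fun q hq => (mem_filter.1 hq).2)
    refine le_trans (le_of_eq ?_) h1
    apply sum_congr rfl
    intro q _
    congr 1
    unfold discr Pool.Agent.W5h32.EH.err
    apply sum_congr rfl
    intro a _
    congr 1
    push_cast
    rfl
  · have h1 := hC x hx (fun q => Pool.Agent.W5h32.EH.cw q (H q) (c q)) _ (filter_subset (fun q =>
          ((H q).index : ℝ) ≤ (x : ℝ) ^ (max (1 - θ) (1 / 4) - ε)) _)
      (fun q hq => by
        rw [mem_filter, mem_Icc] at hq
        have : NeZero q := ⟨by omega⟩
        exact Pool.Agent.W5h32.EH.adm_cw (H q) (c q) _ hq.2)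
    refine le_trans (le_of_eq ?_) h1
    apply sum_congr rfl
    intro q hq
    rw [mem_filter, mem_Icc] at hq
    have : NeZero q := ⟨by omega⟩
    rw [Pool.Agent.W5h32.EH.err_cw, Complex.norm_real, Real.norm_eq_abs]
    congr 1
    have h2 := Pool.Agent.W5h32.EH.card_pos' (H q)
    unfold primesInCoset primePi Pool.Agent.W5h32.EH.cosetCount
    field_simp

end Pool.Agent.Results.MP_a78e8f_nt.CosetAverages
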