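import Pool.Agent.W5h1.MLin.D
import Pool.Agent.Results.MP_a78e8f_nt.ThinFamilies

/-!
# Level of distribution `N / exp (K (log log N) ^ 2)` for almost all residues which are multilinear in the members of
several thin families, up to arbitrary functions of fewer variables

The theorem on families of nearly minimal additive energy (`Results.MP_a78e8f_nt.ThinFamilies`) is from the starting
files. New is the bound for the additive energy of the families below (`Pool.Agent.W5h1.MLin`).
-/

set_option autoImplicit false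

namespace Pool.Agent.Results.MP_a78e8f_nt.MultilinearResidues

open Finset

/-- The additive energy of order `h` of a finite family `x i` (`i ∈ ι`): the number of the solutions of
`x (a 1) + ⋯ + x (a h) = x (b 1) + ⋯ + x (b h)`. -/
noncomputable def energy (h : ℕ) {ι G : Type} [AddCommMonoid G] (x : ι → G) : ℕ :=
  Nat.card {q : (Fin h → ι) × (Fin h → ι) // ∑ j, x (q.1 j) = ∑ j, x (q.2 j)}

/-- The function `f` of several variables `x 0, …, x k` does not depend on the variable `x i`. -/
def IndependentOf {k : ℕ} {ι : Fin (k + 1) → Type} (i : Fin (k + 1)) (f : (∀ i, ι i) → ℤ) : Prop :=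
  ∀ x y : ∀ i, ι i, (∀ j, j ≠ i → x j = y j) → f x = f y

/-- The family `κ ∑ c, a 0 (x 0) c * ⋯ * a k (x k) c + f 0 x + ⋯ + f k x`, indexed by the tuples `x = (x 0, …, x k)`. -/
def value {k d : ℕ} {ι : Fin (k + 1) → Type} (κ : ℤ) (a : ∀ i, ι i → Fin d → ℤ) (f : Fin (k + 1) → (∀ i, ι i) → ℤ)
    (x : ∀ i, ι i) : ℤ := κ * ∑ c, ∏ i, a i (x i) c + ∑ i, f i x

/-- `ψ(x; q, a) - x / φ(q)`, where `ψ(x; q, a)` is the sum of `Λ(n)` over the `1 ≤ n ≤ x` with `n ≡ a (mod q)`. -/
noncomputable def E (x q : ℕ) (a : ℤ) : ℝ :=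
  ∑ n ∈ (Icc 1 x).filter (fun n : ℕ => (n : ℤ) ≡ a [ZMOD q]), ArithmeticFunction.vonMangoldt n -
    (x : ℝ) / Nat.totient q

/-- `N / exp (K (log log N) ^ 2)` -/
noncomputable def level (K N : ℕ) : ℝ := N / Real.exp (K * Real.log (Real.log N) ^ 2)

/-- `τ(q)`, the number of the divisors of `q` -/
noncomputable def τ (q : ℕ) : ℝ := q.divisors.card

open Classical in
/-- The primes up to `B N` have the level of distribution `N / exp (K (log log N) ^ 2)` along the family `v` of
residues:

* for every function `λ` on the moduli with `|λ(q)| ≤ (τ(q) log N) ^ T`, for all but at most `#ι / log ^ U N` members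
  `a > 0` of the family, the sum of `λ(q) E(x; q, a)` over the `q ≤ Q` coprime to `a` is at most `N / log ^ U N` in
  absolute value for ALL `Q ≤ N / exp (K (log log N) ^ 2)` and ALL `x ≤ B N`; and the same for all `Q`, if the length
  `x = x(q) ≤ B N` is an arbitrary function of the modulus;
* for all coefficients `|c i| ≤ log ^ T N` of the members of the family and all functions `x(q) ≤ B N`, the sum over the
  `q ≤ N / exp (K (log log N) ^ 2)` of `τ(q) ^ T` times the ABSOLUTE VALUE of the sum of `c i E(x(q); q, v i)` over the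
  members `v i > 0` coprime to `q` is at most `#ι N / log ^ U N`. -/
def Level (K N B T U : ℕ) {ι : Type} [Fintype ι] (v : ι → ℤ) : Prop :=
  (∀ lam : ℕ → ℝ, (∀ q, |lam q| ≤ (τ q * Real.log N) ^ T) →
    ((univ.filter (fun i : ι => 0 < v i ∧ ∃ Q : ℕ, (Q : ℝ) ≤ level K N ∧ ∃ x : ℕ, x ≤ B * N ∧
      N / Real.log N ^ U < |∑ q ∈ (Icc 1 Q).filter (fun q : ℕ => Int.gcd (v i) q = 1), lam q * E x q (v i)|)).card : ℝ) ≤
        Fintype.card ι / Real.log N ^ U ∧
    ∀ x : ℕ → ℕ, (∀ q, x q ≤ B * N) →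
    ((univ.filter (fun i : ι => 0 < v i ∧ ∃ Q : ℕ, (Q : ℝ) ≤ level K N ∧
      N / Real.log N ^ U < |∑ q ∈ (Icc 1 Q).filter (fun q : ℕ => Int.gcd (v i) q = 1), lam q * E (x q) q (v i)|)).card : ℝ) ≤
        Fintype.card ι / Real.log N ^ U) ∧
  (∀ c : ι → ℝ, (∀ i, |c i| ≤ Real.log N ^ T) → ∀ x : ℕ → ℕ, (∀ q, x q ≤ B * N) →
    ∑ q ∈ Icc 1 ⌊level K N⌋₊, τ q ^ T *
      |∑ i ∈ univ.filter (fun i : ι => 0 < v i ∧ Int.gcd (v i) q = 1), c i * E (x q) q (v i)| ≤
        Fintype.card ι * N / Real.log N ^ U)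

/-- **Level of distribution `N / exp (K (log log N) ^ 2)` along multilinear families of residues.**

Let `d ≥ 1`, `h ≥ 1`, `k`, `s`, `κ ≠ 0`, `B`, `C`, `T`, `U` be fixed. Then there is a `K` with the following property.
Let `X 0, …, X k` be integers with a large product `N`, `N ≤ X i ^ s` for every `i`. Let `a i` (`i = 0, …, k`) be
arbitrary finite families of points of `ℤ ^ d` with coordinates of absolute value at most `B X i`, whose additive
energies of order `h` are minimal up to the factor `log ^ C N`. For every `i` let `f i` be an ARBITRARY function of the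
`k` variables `x j`, `j ≠ i`, with integral values, such that all the values
`v(x) = κ ∑ c, a 0 (x 0) c * ⋯ * a k (x k) c + f 0 x + ⋯ + f k x` are of absolute value at most `B N`.

Then the primes up to `B N` have the level of distribution `N / exp (K (log log N) ^ 2)` along the family of the
residues `v(x)`, where `x = (x 0, …, x k)` runs over all the tuples.

(For example `κ x y + f(x) + g(y)`, `κ x y z + f(x, y) + g(y, z) + h(x, z)`, products of values of polynomials,
squared distances `|x - y| ^ 2` of lattice points.) -/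
theorem result (d h s k B C T U : ℕ) (hd : 1 ≤ d) (hh : 1 ≤ h) (κ : ℤ) (hκ : κ ≠ 0) :
    ∃ K N₀ : ℕ, ∀ X : Fin (k + 1) → ℕ, N₀ ≤ ∏ i, X i → (∀ i, ∏ j, X j ≤ X i ^ s) →
      ∀ (ι : Fin (k + 1) → Type) [∀ i, Fintype (ι i)] (a : ∀ i, ι i → Fin d → ℤ)
        (f : Fin (k + 1) → (∀ i, ι i) → ℤ),
      (∀ i x c, |a i x c| ≤ B * X i) →
      (∀ i, (energy h (a i) : ℝ) * (X i : ℝ) ^ d ≤ Real.log (∏ j, X j : ℕ) ^ C * (Fintype.card (ι i) : ℝ) ^ (2 * h)) →
      (∀ i, IndependentOf i (f i)) → (∀ x, |value κ a f x| ≤ B * (∏ i, X i : ℕ)) →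
      Level K (∏ i, X i) B T U (value κ a f) := by
  obtain ⟨N1, h1⟩ := Pool.Agent.W5h1.MLin.energy_log d h s B C k hd hh κ hκ
  obtain ⟨K, N2, h2⟩ := Pool.Agent.Results.MP_a78e8f_nt.ThinFamilies.level_of (Pool.Agent.W5h1.MLin.ord h s k) B B
    (C * ((k + 1) * (k + 2 + s)) + (Pool.Agent.W5h1.MLin.lexp k + 1)) T U le_rfl
  refine ⟨K, N1 + N2, ?_⟩
  intro X hN hXs ι _ a f ha hE hf hv
  have h3 := h1 X (by omega) hXs ι a f ha hf hE
  exact h2 (∏ i, X i) (by omega) (∀ i, ι i) (Pool.Agent.W5h1.MLin.val κ a f) hv h3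

end Pool.Agent.Results.MP_a78e8f_nt.MultilinearResidues
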