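import Pool.Agent.W5h32.PM.FinAp

/-!
# The errors of Elliott and Halberstam for large moduli do not correlate with polynomial phases of the modulus

For one class `a` the same for all the moduli, the errors `π(y; q, a) - π(y) / φ(q)` for the moduli `q` from
`x ^ (2/3 + ε)` to `x ^ (1 - ε)` in an arbitrary arithmetic progression are orthogonal to `e(P(q))`, for
every real polynomial `P` of bounded degree, uniformly in `P`, `a`, `y`, the range and the progression.

Proof: a prime `p = a + q r` has the cofactor `r` below `x ^ (1/3 - ε)`; so one needs primes in the progressions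
`a` modulo `r` with the phase `e(P((p - a) / r))`. When this phase is far from a rational phase with a small
denominator (in a quantitative sense for the coefficients) there is cancellation in the sums of type I and II by
Weyl differencing; otherwise one moves to progressions to somewhat larger moduli and uses the theorem of
Bombieri and Vinogradov.
-/

set_option autoImplicit false

open Finset Polynomial

namespace Pool.Agent.Results.MP_a78e8f_nt.PolynomialPhasesInTheModulus

/-- `π(x)`: the number of primes `p ≤ x`. -/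
noncomputable def primePi (x : ℕ) : ℕ := ((Icc 1 x).filter (fun p : ℕ => p.Prime)).card

/-- `π(x; q, a)`: the number of primes `p ≤ x` with `p ≡ a (mod q)`. -/
noncomputable def primePiAP (x q a : ℕ) : ℕ :=
  ((Icc 1 x).filter (fun p : ℕ => p.Prime ∧ p ≡ a [MOD q])).card

/-- `e(t) = exp(2 π i t)`. -/
noncomputable def e (t : ℝ) : ℂ := Complex.exp (2 * Real.pi * t * Complex.I)

/-- For every `k`, every `ε > 0` and every real `A` there is a constant `C` such that for every integer `x > 2`,
all integers `1 ≤ a ≤ x` and `0 ≤ y ≤ x`, all `Q₁ ≥ x ^ (2/3 + ε)` and `Q₂ ≤ x ^ (1 - ε)`, all `b` and `d ≥ 1` and every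
real polynomial `P` of degree at most `k`, the sum of `e(P(q)) (π(y; q, a) - π(y)/φ(q))` over the moduli
`Q₁ < q ≤ Q₂` prime to `a` with `q ≡ b (mod d)` has absolute value at most `C x / (log x) ^ A`. -/
theorem result (k : ℕ) (ε A : ℝ) (hε : 0 < ε) :
    ∃ C : ℝ, ∀ x : ℕ, 2 < x → ∀ (a y Q₁ Q₂ b d : ℕ) (P : ℝ[X]), 1 ≤ a → a ≤ x → y ≤ x → 0 < d →
      P.natDegree ≤ k → (x : ℝ) ^ (2 / 3 + ε) ≤ Q₁ → (Q₂ : ℝ) ≤ (x : ℝ) ^ (1 - ε) →
      ‖∑ q ∈ (Ioc Q₁ Q₂).filter (fun q => a.Coprime q ∧ q ≡ b [MOD d]),
          e (P.eval (q : ℝ)) * ((primePiAP y q a : ℂ) - (primePi y : ℂ) / (Nat.totient q : ℂ))‖ ≤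
        C * (x / Real.log x ^ A) :=
  Pool.Agent.W5h32.PM.fin_ap k ε A hε

end Pool.Agent.Results.MP_a78e8f_nt.PolynomialPhasesInTheModulus
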