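import Pool.Agent.Results.MP_a78e8f_nt.ThinFamilies
import Pool.Agent.W5h23.SF.Level

/-!
# Level of distribution `N / exp (K (log log N) ^ 2)` along the residues `c + ⌊f(m)⌋`, `f` smooth

The criterion for families of nearly minimal additive energy is `ThinFamilies.level_of` of the starting files; the
energy of the integer parts of smooth sequences (van der Corput's method) is `Pool.Agent.W5h23.SF`.
-/

set_option autoImplicit false

namespace Pool.Agent.Results.MP_a78e8f_nt.SmoothFamilies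

open Finset

/-- `ψ(x; q, a) - x / φ(q)`, where `ψ(x; q, a)` is the sum of `Λ(n)` over the `1 ≤ n ≤ x` with `n ≡ a (mod q)`. -/
noncomputable def E (x q : ℕ) (a : ℤ) : ℝ :=
  ∑ n ∈ (Icc 1 x).filter (fun n : ℕ => (n : ℤ) ≡ a [ZMOD q]), ArithmeticFunction.vonMangoldt n -
    (x : ℝ) / Nat.totient q

/-- `N / exp (K (log log N) ^ 2)` -/
noncomputable def level (K N : ℕ) : ℝ := N / Real.exp (K * Real.log (Real.log N) ^ 2)

/-- `τ(q)`, the number of the divisors of `q` -/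
noncomputable def τ (q : ℕ) : ℝ := q.divisors.card

open Classical in
/-- The primes up to `B N` have the level of distribution `N / exp (K (log log N) ^ 2)` along the family `v` of
residues:

* for every function `λ` on the moduli with `|λ(q)| ≤ (τ(q) log N) ^ T`, for all but at most `#ι / log ^ U N` members
  `a > 0` of the family, the sum of `λ(q) E(x; q, a)` over the `q ≤ Q` coprime to `a` is at most `N / log ^ U N` in
  absolute value for ALL `Q ≤ N / exp (K (log log N) ^ 2)` and ALL `x ≤ B N`; and the same for all `Q`, if the length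
  `x = x(q) ≤ B N` is an arbitrary function of the modulus;
* for all coefficients `|c i| ≤ log ^ T N` of the members of the family and all functions `x(q) ≤ B N`, the sum over the
  `q ≤ N / exp (K (log log N) ^ 2)` of `τ(q) ^ T` times the ABSOLUTE VALUE of the sum of `c i E(x(q); q, v i)` over the
  members `v i > 0` coprime to `q` is at most `#ι N / log ^ U N`. -/
def Level (K N B T U : ℕ) {ι : Type} [Fintype ι] (v : ι → ℤ) : Prop :=
  (∀ lam : ℕ → ℝ, (∀ q, |lam q| ≤ (τ q * Real.log N) ^ T) →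
    ((univ.filter (fun i : ι => 0 < v i ∧ ∃ Q : ℕ, (Q : ℝ) ≤ level K N ∧ ∃ x : ℕ, x ≤ B * N ∧
      N / Real.log N ^ U < |∑ q ∈ (Icc 1 Q).filter (fun q : ℕ => Int.gcd (v i) q = 1), lam q * E x q (v i)|)).card : ℝ) ≤
        Fintype.card ι / Real.log N ^ U ∧
    ∀ x : ℕ → ℕ, (∀ q, x q ≤ B * N) →
    ((univ.filter (fun i : ι => 0 < v i ∧ ∃ Q : ℕ, (Q : ℝ) ≤ level K N ∧
      N / Real.log N ^ U < |∑ q ∈ (Icc 1 Q).filter (fun q : ℕ => Int.gcd (v i) q = 1), lam q * E (x q) q (v i)|)).card : ℝ) ≤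
        Fintype.card ι / Real.log N ^ U) ∧
  (∀ c : ι → ℝ, (∀ i, |c i| ≤ Real.log N ^ T) → ∀ x : ℕ → ℕ, (∀ q, x q ≤ B * N) →
    ∑ q ∈ Icc 1 ⌊level K N⌋₊, τ q ^ T *
      |∑ i ∈ univ.filter (fun i : ι => 0 < v i ∧ Int.gcd (v i) q = 1), c i * E (x q) q (v i)| ≤
        Fintype.card ι * N / Real.log N ^ U)

/-- `f` varies on `[M, 2 M]` like a function of size `A` of the variable `t / M`: the functions `D j` are the successive
derivatives of `f = D 0`, and `c A ≤ |f⁽ʲ⁾(t)| M ^ j ≤ C A` for `1 ≤ j ≤ K`. -/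
def Smooth (K : ℕ) (c C M A : ℝ) (f : ℝ → ℝ) : Prop :=
  ∃ D : ℕ → ℝ → ℝ, D 0 = f ∧ (∀ j ≤ K, ∀ t ∈ Set.Icc M (2 * M), HasDerivAt (D j) (D (j + 1) t) t) ∧
    ∀ j, 1 ≤ j → j ≤ K → ∀ t ∈ Set.Icc M (2 * M), c * A ≤ |D j t| * M ^ j ∧ |D j t| * M ^ j ≤ C * A

theorem smooth_case (Q : ℕ) (c0 C0 : ℝ) (hQ : 1 ≤ Q) (hc0 : 0 < c0) (hC0 : 1 ≤ C0) (D B T U : ℕ) :
    ∃ K N₀ : ℕ, ∀ N : ℕ, N₀ ≤ N → ∀ (M : ℕ) (A : ℝ) (f : ℝ → ℝ),
      N ≤ Real.log N ^ D * A → A ≤ (M : ℝ) ^ Q → Smooth (Q + 2) c0 C0 M A f →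
      ∀ S : Finset ℕ, S ⊆ Ico M (2 * M) → (M : ℝ) ≤ Real.log N ^ D * S.card →
      ∀ c : ℤ, (∀ m ∈ S, |c + ⌊f m⌋| ≤ B * N) → Level K N B T U (fun m : {m // m ∈ S} => c + ⌊f (m : ℕ)⌋) := by
  obtain ⟨p, E1, N1, hp, h1⟩ := Pool.Agent.W5h23.SF.energy_log Q hQ c0 C0 hc0 hC0 D
  obtain ⟨K, N2, h2⟩ := ThinFamilies.level_of p B B E1 T U le_rfl
  obtain ⟨N3, h3⟩ : ∃ N3 : ℕ, ∀ N : ℕ, N3 ≤ N → Real.log N ^ D ≤ N ∧ 1 ≤ Real.log N := by
    have e1 := (isLittleO_log_rpow_rpow_atTop (s := 1) (D : ℝ) one_pos).bound one_pos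
    have e2 := Real.tendsto_log_atTop.eventually_ge_atTop 1
    obtain ⟨N3, e3⟩ := Filter.eventually_atTop.1
      (tendsto_natCast_atTop_atTop.eventually (e1.and (e2.and (Filter.eventually_ge_atTop 1))))
    refine ⟨N3, fun N hN => ?_⟩
    obtain ⟨k1, k2, k3⟩ := e3 N hN
    rw [one_mul, Real.rpow_one, Real.rpow_natCast, Real.norm_of_nonneg (by positivity), Real.norm_of_nonneg (by linarith)] at k1
    exact ⟨k1, k2⟩
  refine ⟨K, N1 + N2 + N3 + 1, fun N hN M A f hNA hAQ hf S hS hcard c hc => ?_⟩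
  obtain ⟨k1, k2⟩ := h3 N (by omega)
  have hN0 : (0 : ℝ) < N := by exact_mod_cast (by omega : 0 < N)
  have hA : 1 ≤ A := by
    by_contra hlt
    push Not at hlt
    have hl : 0 < Real.log N ^ D := by positivity
    have : Real.log N ^ D * A < Real.log N ^ D * 1 := mul_lt_mul_of_pos_left hlt hl
    linarith
  have hM : 1 ≤ M := by
    rcases Nat.eq_zero_or_pos M with h | h
    · subst h
      rw [Nat.cast_zero, zero_pow (by omega)] at hAQ
      linarith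
    · exact h
  have he := h1 M N A f (by omega) hM hA hAQ hNA hf S hS hcard c
  exact h2 N (by omega) {m // m ∈ S} (fun m : {m // m ∈ S} => c + ⌊f (m : ℕ)⌋) (fun m => hc m m.2) he

/-- **Level of distribution `N / exp (K (log log N) ^ 2)` along the integer parts of smooth sequences.**

(1) Let `Q ≥ 1`, `c0 > 0`, `C0 ≥ 1` and `D`, `B`, `T`, `U` be given. There is a `K` such that for every large `N`, every
function `f` with `c0 A ≤ |f⁽ʲ⁾(t)| M ^ j ≤ C0 A` for `1 ≤ j ≤ Q + 2` and `M ≤ t ≤ 2 M`, where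
`N / log ^ D N ≤ A ≤ M ^ Q`, EVERY set `S ⊆ [M, 2 M)` with at least `M / log ^ D N` elements and every integer `c` such
that the integers `c + ⌊f(m)⌋`, `m ∈ S`, are at most `B N` in absolute value, the primes up to `B N` have the level of
distribution `N / exp (K (log log N) ^ 2)` along the residues `c + ⌊f(m)⌋`, `m ∈ S`. (`M` can be as small as `N ^ (1 / Q)`,
and `Q` is arbitrary.)

(2) In particular for the residues `c + ⌊α m ^ κ⌋`, where `κ` is any real number except `0`, `1`, `2`, … and `α` is any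
real number with `N / log ^ D N ≤ |α| M ^ κ ≤ M ^ Q` (for example `⌊m ^ κ⌋` and `⌊x / m⌋`),

(3) and for the residues `c + ⌊α log m⌋`, `N / log ^ D N ≤ |α| ≤ M ^ Q`. -/
theorem result :
    (∀ (Q : ℕ) (c0 C0 : ℝ), 1 ≤ Q → 0 < c0 → 1 ≤ C0 → ∀ D B T U : ℕ, ∃ K N₀ : ℕ, ∀ N : ℕ, N₀ ≤ N →
      ∀ (M : ℕ) (A : ℝ) (f : ℝ → ℝ), N ≤ Real.log N ^ D * A → A ≤ (M : ℝ) ^ Q → Smooth (Q + 2) c0 C0 M A f →
      ∀ S : Finset ℕ, S ⊆ Ico M (2 * M) → (M : ℝ) ≤ Real.log N ^ D * S.card →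
      ∀ c : ℤ, (∀ m ∈ S, |c + ⌊f m⌋| ≤ B * N) → Level K N B T U (fun m : {m // m ∈ S} => c + ⌊f (m : ℕ)⌋)) ∧
    (∀ κ : ℝ, (∀ n : ℕ, κ ≠ n) → ∀ Q D B T U : ℕ, ∃ K N₀ : ℕ, ∀ N : ℕ, N₀ ≤ N →
      ∀ (M : ℕ) (α : ℝ), N ≤ Real.log N ^ D * (|α| * (M : ℝ) ^ κ) → |α| * (M : ℝ) ^ κ ≤ (M : ℝ) ^ Q →
      ∀ S : Finset ℕ, S ⊆ Ico M (2 * M) → (M : ℝ) ≤ Real.log N ^ D * S.card →
      ∀ c : ℤ, (∀ m ∈ S, |c + ⌊α * (m : ℝ) ^ κ⌋| ≤ B * N) →
        Level K N B T U (fun m : {m // m ∈ S} => c + ⌊α * ((m : ℕ) : ℝ) ^ κ⌋)) ∧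
    (∀ Q D B T U : ℕ, ∃ K N₀ : ℕ, ∀ N : ℕ, N₀ ≤ N →
      ∀ (M : ℕ) (α : ℝ), N ≤ Real.log N ^ D * |α| → |α| ≤ (M : ℝ) ^ Q →
      ∀ S : Finset ℕ, S ⊆ Ico M (2 * M) → (M : ℝ) ≤ Real.log N ^ D * S.card →
      ∀ c : ℤ, (∀ m ∈ S, |c + ⌊α * Real.log m⌋| ≤ B * N) →
        Level K N B T U (fun m : {m // m ∈ S} => c + ⌊α * Real.log ((m : ℕ) : ℝ)⌋)) := by
  refine ⟨smooth_case, ?_, ?_⟩
  · intro κ hκ Q D B T U
    obtain ⟨c0, C0, hc0, hC0, hs⟩ := Pool.Agent.W5h23.SF.smooth_rpow κ hκ (Q + 1 + 2)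
    obtain ⟨K, N₀, h⟩ := smooth_case (Q + 1) c0 C0 (by omega) hc0 hC0 D B T U
    refine ⟨K, N₀ + 3, fun N hN M α hNA hAQ S hS hcard c hc => ?_⟩
    have hN3 : (1 : ℝ) < N := by exact_mod_cast (by omega : 1 < N)
    have hl : 0 < Real.log N := Real.log_pos hN3
    have hα : α ≠ 0 := by
      rintro rfl
      rw [abs_zero, zero_mul, mul_zero] at hNA
      linarith
    have hM : 1 ≤ M := by
      rcases Nat.eq_zero_or_pos M with h0 | h0
      · subst h0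
        exfalso
        have hκ0 : κ ≠ 0 := by simpa using hκ 0
        rw [Nat.cast_zero, Real.zero_rpow hκ0, mul_zero, mul_zero] at hNA
        linarith
      · exact h0
    have hM1 : (1 : ℝ) ≤ M := by exact_mod_cast hM
    have hA2 : |α| * (M : ℝ) ^ κ ≤ (M : ℝ) ^ (Q + 1) := hAQ.trans (pow_le_pow_right₀ hM1 (by omega))
    exact h N (by omega) M (|α| * (M : ℝ) ^ κ) (fun t => α * t ^ κ) hNA hA2 (hs M α (by linarith) hα) S hS hcard c hc
  · intro Q D B T U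
    obtain ⟨c0, C0, hc0, hC0, hs⟩ := Pool.Agent.W5h23.SF.smooth_log (Q + 1 + 2)
    obtain ⟨K, N₀, h⟩ := smooth_case (Q + 1) c0 C0 (by omega) hc0 hC0 D B T U
    refine ⟨K, N₀ + 3, fun N hN M α hNA hAQ S hS hcard c hc => ?_⟩
    have hN3 : (1 : ℝ) < N := by exact_mod_cast (by omega : 1 < N)
    have hl : 0 < Real.log N := Real.log_pos hN3
    have hα : α ≠ 0 := by
      rintro rfl
      rw [abs_zero, mul_zero] at hNA
      linarith
    rcases Nat.eq_zero_or_pos M with h0 | h0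
    · subst h0
      have hS' : S = ∅ := by
        rw [← subset_empty]
        refine hS.trans ?_
        simp
      subst hS'
      constructor
      · intro lam _
        constructor
        · simp
        · intro x _
          simp
      · intro c _ x _
        simp
    have hM1 : (1 : ℝ) ≤ M := by exact_mod_cast h0
    have hA2 : |α| ≤ (M : ℝ) ^ (Q + 1) := hAQ.trans (pow_le_pow_right₀ hM1 (by omega))
    exact h N (by omega) M |α| (fun t => α * Real.log t) hNA hA2 (hs M α (by linarith) hα) S hS hcard c hc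

end Pool.Agent.Results.MP_a78e8f_nt.SmoothFamilies
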